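import Mathlib
import Pool.Agent.E8helper42.AZ.Stm2

/-!
# Project AZ, parts TR and AB: power series as Hahn series; the differential equations
-/

set_option autoImplicit false

namespace Pool.Agent.E8helper36.AZ

open Polynomial Pool.Agent.E8helper42.AZ

/-- `n ↦ (0, 2 n)` -/
noncomputable def fN : ℕ →+ Gam := (multiplesHom Gam) (mk 0 2)

lemma p1_fN (n : ℕ) : p1 (fN n) = 0 := by
  show p1 (n • mk 0 2) = 0
  rw [map_nsmul, p1_mk, smul_zero]

lemma p2_fN (n : ℕ) : p2 (fN n) = 2 * n := by
  show p2 (n • mk 0 2) = 2 * n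
  rw [map_nsmul, p2_mk, nsmul_eq_mul, mul_comm]

lemma fN_lt {m n : ℕ} (h : m < n) : fN m < fN n := by
  rw [gam_lt, p1_fN, p1_fN, p2_fN, p2_fN]
  right
  refine ⟨rfl, ?_⟩
  omega

lemma fN_strictMono : StrictMono fN := fun _ _ h => fN_lt h

/-- power series as Hahn series -/
noncomputable def ph : PowerSeries ℚ →+* RR :=
  (HahnSeries.embDomainRingHom fN fN_strictMono.injective (fun _ _ => fN_strictMono.le_iff_le)).comp
    ((HahnSeries.toPowerSeries (R := ℂ[X])).symm.toRingHom.comp
      (PowerSeries.map (algebraMap ℚ ℂ[X])))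

lemma ph_emb : IsEmb ph := by
  intro s g
  have h0 : ∀ n, (ph s).coeff (fN n) = C ((PowerSeries.coeff n s : ℚ) : ℂ) := by
    intro n
    have h1 : (ph s).coeff (fN n) = ((HahnSeries.toPowerSeries (R := ℂ[X])).symm
        (PowerSeries.map (algebraMap ℚ ℂ[X]) s)).coeff n :=
      HahnSeries.embDomain_coeff
    rw [h1, HahnSeries.coeff_toPowerSeries_symm, PowerSeries.coeff_map]
    rw [Polynomial.algebraMap_apply]
    rfl
  split_ifs with h
  · obtain ⟨h1, h2, h3⟩ := h
    obtain ⟨k, hk⟩ := h3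
    have hg : g = fN (p2 g / 2).toNat := by
      apply gam_ext
      · rw [h1, p1_fN]
      · rw [p2_fN]; omega
    have h4 := h0 (p2 g / 2).toNat
    rw [← hg] at h4
    exact h4
  · apply HahnSeries.embDomain_of_notMem_range
    rintro ⟨n, hn⟩
    apply h
    have hn' : fN n = g := hn
    rw [← hn', p1_fN, p2_fN]
    refine ⟨rfl, by omega, ?_⟩
    exact even_two_mul _

lemma emb_X {φ : PowerSeries ℚ →+* RR} (hφ : IsEmb φ) : φ PowerSeries.X = d0.z := by
  ext1
  funext g
  rw [hφ, Dat.z, HahnSeries.coeff_single, d0_g₀]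
  by_cases hg : g = mk 0 2
  · subst hg
    simp
  · rw [if_neg hg]
    split_ifs with h
    · rw [PowerSeries.coeff_X, if_neg]
      · simp
      · intro h1
        apply hg
        obtain ⟨k, hk⟩ := h.2.2
        apply gam_ext
        · rw [h.1, p1_mk]
        · rw [p2_mk]
          have := h.2.1
          omega
    · rfl

lemma emb_C {φ : PowerSeries ℚ →+* RR} (q : ℚ) :
    φ (PowerSeries.C q) = algebraMap ℂ RR (q : ℂ) := by
  have h : φ.comp (PowerSeries.C (R := ℚ)) = (algebraMap ℂ RR).comp (algebraMap ℚ ℂ) :=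
    Subsingleton.elim _ _
  have h1 := congrArg (fun f : ℚ →+* RR => f q) h
  simpa using h1

lemma smul_eq_mul_alg (c : ℂ) (x : RR) : c • x = algebraMap ℂ RR c * x := Algebra.smul_def c x

/-- TR -/
theorem tr : S_TR := by
  refine ⟨ph, ph_emb, fun σ x hx => ?_⟩
  rw [algebraicIndependent_iff]
  intro P hP
  set j : ℚ[X] →+* FF := (algebraMap ℂ[X] FF).comp (Polynomial.mapRingHom (algebraMap ℚ ℂ)) with hj
  have hji : Function.Injective j :=
    (IsFractionRing.injective ℂ[X] FF).comp
      (Polynomial.map_injective (algebraMap ℚ ℂ) (algebraMap ℚ ℂ).injective)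
  have hcomp : d0.emb.comp j = ph.comp (algebraMap ℚ[X] (PowerSeries ℚ)) := by
    refine Polynomial.ringHom_ext' (Subsingleton.elim _ _) ?_
    rw [RingHom.comp_apply, RingHom.comp_apply, RingHom.comp_apply, Polynomial.coe_mapRingHom,
      Polynomial.map_X, Dat.emb_poly, aeval_X]
    have : (algebraMap ℚ[X] (PowerSeries ℚ)) X = PowerSeries.X := by
      rw [PowerSeries.algebraMap_apply']
      simp
    rw [this, emb_X ph_emb]
  have h1 : MvPolynomial.eval₂ d0.emb (fun v => ph (x v)) (MvPolynomial.map j P) = 0 := by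
    rw [MvPolynomial.eval₂_map, hcomp]
    have h2 := MvPolynomial.eval₂_comp_left ph (algebraMap ℚ[X] (PowerSeries ℚ)) x P
    rw [show (fun v => ph (x v)) = ph ∘ x from rfl, ← h2, ← MvPolynomial.aeval_def, hP, map_zero]
  have h3 := hx _ h1
  exact (MvPolynomial.map_injective j hji) (by rw [h3, map_zero])

/-- AB -/
theorem ab : S_AB := by
  intro φ hφ
  have hth : ∀ (c : ℕ → ℚ) (t : ℚ) (j : ℕ), d0.th (φ (ser c t j)) = φ (ser c t (j + 1)) := by
    intro c t j
    ext1
    funext g
    rw [d0.coeff_th, hφ (ser c t j), hφ (ser c t (j + 1)), d0_χ₂, map_zero, zero_mul, add_zero, d0_χ₁]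
    split_ifs with h
    · obtain ⟨h1, h2, k, hk⟩ := h
      obtain ⟨n, rfl⟩ := Int.eq_ofNat_of_zero_le (show 0 ≤ k by omega)
      have h3 : (p2 g / 2).toNat = n := by omega
      rw [h3, h1, derivative_C, zero_add, hk, ser, ser, PowerSeries.coeff_mk, PowerSeries.coeff_mk,
        ← C_mul]
      congr 1
      push_cast
      ring
    · simp
  refine ⟨hth, fun a b hab t => ?_⟩
  have key : ∀ c : ℕ → ℚ, Lop d0 t (φ (ser c t 0)) = φ (ser c t 4 - PowerSeries.C t * (PowerSeries.X *
      (PowerSeries.C 34 * ser c t 3 + PowerSeries.C 51 * ser c t 2 + PowerSeries.C 27 * ser c t 1 +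
        PowerSeries.C 5 * ser c t 0)) + PowerSeries.C (t ^ 2) * (PowerSeries.X * (PowerSeries.X *
      (ser c t 2 + PowerSeries.C 2 * ser c t 1 + ser c t 0)))) := by
    intro c
    rw [Lop, hth, hth, hth, hth]
    simp only [map_add, map_sub, map_mul, emb_X hφ, emb_C, smul_eq_mul_alg, Rat.cast_pow,
      Rat.cast_ofNat]
  have hcoef : ∀ (c : ℕ → ℚ) (m : ℕ), PowerSeries.coeff m (ser c t 4 - PowerSeries.C t * (PowerSeries.X *
      (PowerSeries.C 34 * ser c t 3 + PowerSeries.C 51 * ser c t 2 + PowerSeries.C 27 * ser c t 1 +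
        PowerSeries.C 5 * ser c t 0)) + PowerSeries.C (t ^ 2) * (PowerSeries.X * (PowerSeries.X *
      (ser c t 2 + PowerSeries.C 2 * ser c t 1 + ser c t 0)))) =
      match m with
      | 0 => 0
      | 1 => c 1 * t - 5 * c 0 * t
      | (n + 2) => t ^ (n + 2) / ((n + 1).factorial : ℚ) * (((n : ℚ) + 2) ^ 3 * c (n + 2) -
          cP ((n : ℚ) + 1) * c (n + 1) + ((n : ℚ) + 1) ^ 3 * c n) := by
    intro c m
    match m with
    | 0 => simp [ser]
    | 1 =>
      rw [map_add, map_sub, PowerSeries.coeff_C_mul, PowerSeries.coeff_C_mul,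
        PowerSeries.coeff_succ_X_mul, PowerSeries.coeff_succ_X_mul]
      simp [ser]
      ring
    | (n + 2) =>
      rw [map_add, map_sub, PowerSeries.coeff_C_mul, PowerSeries.coeff_C_mul,
        PowerSeries.coeff_succ_X_mul, PowerSeries.coeff_succ_X_mul, PowerSeries.coeff_succ_X_mul]
      simp only [map_add, PowerSeries.coeff_C_mul, ser, PowerSeries.coeff_mk]
      have h1 : ((n + 2).factorial : ℚ) = ((n : ℚ) + 2) * (n + 1).factorial := by
        rw [Nat.factorial_succ (n + 1)]; push_cast; ring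
      have h2 : ((n + 1).factorial : ℚ) = ((n : ℚ) + 1) * n.factorial := by
        rw [Nat.factorial_succ n]; push_cast; ring
      have h3 : ((n).factorial : ℚ) ≠ 0 := by exact_mod_cast Nat.factorial_ne_zero n
      have h4 : ((n : ℚ) + 1) ≠ 0 := by positivity
      have h5 : ((n : ℚ) + 2) ≠ 0 := by positivity
      rw [h1, h2, cP]
      push_cast
      field_simp
      ring
  constructor
  · rw [key]
    have : (ser a t 4 - PowerSeries.C t * (PowerSeries.X *
      (PowerSeries.C 34 * ser a t 3 + PowerSeries.C 51 * ser a t 2 + PowerSeries.C 27 * ser a t 1 +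
        PowerSeries.C 5 * ser a t 0)) + PowerSeries.C (t ^ 2) * (PowerSeries.X * (PowerSeries.X *
      (ser a t 2 + PowerSeries.C 2 * ser a t 1 + ser a t 0)))) = 0 := by
      ext m
      rw [hcoef, map_zero]
      match m with
      | 0 => rfl
      | 1 => simp only [hab.a0, hab.a1]; ring
      | (n + 2) => simp only [hab.rec_a n, mul_zero]
    rw [this, map_zero]
  · rw [key]
    have : (ser b t 4 - PowerSeries.C t * (PowerSeries.X *
      (PowerSeries.C 34 * ser b t 3 + PowerSeries.C 51 * ser b t 2 + PowerSeries.C 27 * ser b t 1 +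
        PowerSeries.C 5 * ser b t 0)) + PowerSeries.C (t ^ 2) * (PowerSeries.X * (PowerSeries.X *
      (ser b t 2 + PowerSeries.C 2 * ser b t 1 + ser b t 0)))) =
        PowerSeries.C (6 * t) * PowerSeries.X := by
      ext m
      rw [hcoef, PowerSeries.coeff_C_mul, PowerSeries.coeff_X]
      match m with
      | 0 => simp
      | 1 => simp only [hab.b0, hab.b1]; simp
      | (n + 2) => simp only [hab.rec_b n, mul_zero]; simp
    rw [this, map_mul, emb_X hφ, emb_C, smul_eq_mul_alg]
    push_cast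
    rfl

end Pool.Agent.E8helper36.AZ
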