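import Mathlib
import Pool.Agent.E8helper42.AZ.Stm2

/-!
# Project AZ, part IB: the lattice of polynomial vectors in a stable subspace
-/

set_option autoImplicit false

namespace Pool.Agent.E8helper36.AZ

open Polynomial Pool.Agent.E8helper42.AZ

/-- polynomial vectors as vectors of rational functions -/
noncomputable def io (n : ℕ) : (Fin n → ℂ[X]) →ₗ[ℂ[X]] (Fin n → FF) :=
  (Algebra.linearMap ℂ[X] FF).compLeft (Fin n)

lemma io_apply {n : ℕ} (v : Fin n → ℂ[X]) : io n v = fun i => algebraMap ℂ[X] FF (v i) := rfl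

lemma io_inj (n : ℕ) : Function.Injective (io n) := by
  intro v w h
  funext i
  exact IsFractionRing.injective ℂ[X] FF (congrFun h i)

/-- the lattice -/
noncomputable def Lat {n : ℕ} (W : Submodule FF (Fin n → FF)) : Submodule ℂ[X] (Fin n → ℂ[X]) :=
  (W.restrictScalars ℂ[X]).comap (io n)

lemma mem_Lat {n : ℕ} {W : Submodule FF (Fin n → FF)} {v : Fin n → ℂ[X]} :
    v ∈ Lat W ↔ io n v ∈ W := Iff.rfl

lemma clear {n : ℕ} (v : Fin n → FF) : ∃ (d : ℂ[X]) (u : Fin n → ℂ[X]), d ≠ 0 ∧
    (algebraMap ℂ[X] FF d) • v = io n u := by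
  obtain ⟨d, hd⟩ := IsLocalization.exist_integer_multiples_of_finite (nonZeroDivisors ℂ[X]) v
  choose u hu using hd
  refine ⟨d, u, nonZeroDivisors.ne_zero d.2, ?_⟩
  funext i
  rw [io_apply]
  simp only [Pi.smul_apply, smul_eq_mul]
  rw [hu i]
  show _ = (d : ℂ[X]) • v i
  rw [Algebra.smul_def]

theorem ib : S_IB := by
  intro n A hA W hW
  classical
  -- a basis of the lattice
  obtain ⟨s, b⟩ : ∃ s, Nonempty (Module.Basis (Fin s) ℂ[X] (Lat W)) := by
    obtain ⟨s, b⟩ := Submodule.basisOfPid (Pi.basisFun ℂ[X] (Fin n)) (Lat W)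
    exact ⟨s, ⟨b⟩⟩
  obtain ⟨b⟩ := b
  set f : Fin s → Fin n → FF := fun j => io n (b j : Fin n → ℂ[X]) with hf
  have hfW : ∀ j, f j ∈ W := fun j => (b j).2
  have hind : LinearIndependent FF f := by
    rw [← LinearIndependent.iff_fractionRing ℂ[X] FF]
    have h1 : LinearIndependent ℂ[X] fun j => (b j : Fin n → ℂ[X]) :=
      b.linearIndependent.map' (Lat W).subtype (Submodule.ker_subtype _)
    exact h1.map' (io n) (LinearMap.ker_eq_bot.2 (io_inj n))
  have hrepr : ∀ v ∈ Lat W, ∃ c : Fin s → ℂ[X], v = ∑ j, c j • (b j : Fin n → ℂ[X]) := by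
    intro v hv
    refine ⟨fun j => b.repr ⟨v, hv⟩ j, ?_⟩
    have h1 := b.sum_repr ⟨v, hv⟩
    have h2 := congrArg (Lat W).subtype h1
    rw [map_sum] at h2
    simpa using h2.symm
  have hspan : ∀ v ∈ W, ∃ c : Fin s → FF, v = ∑ j, c j • f j := by
    intro v hv
    obtain ⟨d, u, hd, hu⟩ := clear v
    have huL : u ∈ Lat W := by
      rw [mem_Lat, ← hu]
      exact W.smul_mem _ hv
    obtain ⟨c, hc⟩ := hrepr u huL
    have hd' : (algebraMap ℂ[X] FF d) ≠ 0 := by
      intro h
      exact hd ((IsFractionRing.injective ℂ[X] FF) (by rw [h, map_zero]))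
    refine ⟨fun j => (algebraMap ℂ[X] FF d)⁻¹ * algebraMap ℂ[X] FF (c j), ?_⟩
    have h1 : v = (algebraMap ℂ[X] FF d)⁻¹ • io n u := by
      rw [← hu, smul_smul, inv_mul_cancel₀ hd', one_smul]
    rw [h1, hc, map_sum, Finset.smul_sum]
    refine Finset.sum_congr rfl fun j _ => ?_
    rw [map_smul, ← smul_smul, algebraMap_smul]
  -- the dimension
  have hdim : Module.finrank FF W = s := by
    have h1 : Submodule.span FF (Set.range f) = W := by
      apply le_antisymm
      · rw [Submodule.span_le]
        rintro _ ⟨j, rfl⟩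
        exact hfW j
      · intro v hv
        obtain ⟨c, hc⟩ := hspan v hv
        rw [hc]
        exact Submodule.sum_mem _ fun j _ => Submodule.smul_mem _ _ (Submodule.subset_span ⟨j, rfl⟩)
    rw [← h1, finrank_span_eq_card hind, Fintype.card_fin]
  suffices hmain : ∃ (w : Matrix (Fin n) (Fin s) ℂ[X]) (B : Matrix (Fin s) (Fin s) ℂ[X]),
      (∀ c : Fin s → FF, (w.map (algebraMap ℂ[X] FF)).mulVec c = 0 → c = 0) ∧
      (∀ v, v ∈ W ↔ ∃ c : Fin s → FF, v = (w.map (algebraMap ℂ[X] FF)).mulVec c) ∧
      w.map (fun p => X * derivative p) - A * w = w * B ∧ B.trace.eval 0 = 0 by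
    rw [hdim]
    exact hmain
  -- the matrices
  set w : Matrix (Fin n) (Fin s) ℂ[X] := Matrix.of fun i j => (b j : Fin n → ℂ[X]) i with hw
  have hmul : ∀ c : Fin s → FF, (w.map (algebraMap ℂ[X] FF)).mulVec c = ∑ j, c j • f j := by
    intro c
    funext i
    rw [Matrix.mulVec, dotProduct, Finset.sum_apply]
    refine Finset.sum_congr rfl fun j _ => ?_
    rw [Matrix.map_apply, hw, Matrix.of_apply, Pi.smul_apply, smul_eq_mul, mul_comm]
    rfl
  have hindp : ∀ c : Fin s → ℂ[X], ∑ j, c j • (b j : Fin n → ℂ[X]) = 0 → c = 0 := by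
    intro c hc
    have h1 : LinearIndependent ℂ[X] fun j => (b j : Fin n → ℂ[X]) :=
      b.linearIndependent.map' (Lat W).subtype (Submodule.ker_subtype _)
    rw [Fintype.linearIndependent_iff] at h1
    funext j
    exact h1 c hc j
  have hD : ∀ j : Fin s, ∃ B : Fin s → ℂ[X], (fun i => X * derivative ((b j : Fin n → ℂ[X]) i) -
      A.mulVec (b j : Fin n → ℂ[X]) i) = ∑ k, B k • (b k : Fin n → ℂ[X]) := by
    intro j
    apply hrepr
    rw [mem_Lat]
    have h1 := hW _ (hfW j)
    convert h1 using 1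
    funext i
    rw [io_apply]
    simp only [Pi.sub_apply, Function.comp_apply, map_sub, hf, io_apply]
    rw [thF_poly]
    congr 1
    rw [Matrix.mulVec, Matrix.mulVec, dotProduct, dotProduct, map_sum]
    refine Finset.sum_congr rfl fun k _ => ?_
    rw [map_mul, Matrix.map_apply]
  choose B hB using hD
  refine ⟨w, Matrix.of fun k j => B j k, ?_, ?_, ?_, ?_⟩
  · intro c hc
    rw [hmul] at hc
    rw [Fintype.linearIndependent_iff] at hind
    funext j
    exact hind c hc j
  · intro v
    constructor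
    · intro hv
      obtain ⟨c, hc⟩ := hspan v hv
      exact ⟨c, by rw [hmul, hc]⟩
    · rintro ⟨c, rfl⟩
      rw [hmul]
      exact Submodule.sum_mem _ fun j _ => Submodule.smul_mem _ _ (hfW j)
  · ext1 i j
    have h1 := congrFun (hB j) i
    rw [Finset.sum_apply] at h1
    rw [Matrix.sub_apply, Matrix.map_apply, Matrix.mul_apply, Matrix.mul_apply]
    rw [Matrix.mulVec, dotProduct] at h1
    simp only [hw, Matrix.of_apply]
    rw [h1]
    refine Finset.sum_congr rfl fun k _ => ?_
    rw [Pi.smul_apply, smul_eq_mul, mul_comm]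
  · -- evaluation at zero
    set Bm : Matrix (Fin s) (Fin s) ℂ[X] := Matrix.of fun k j => B j k with hBm
    have hrel : w.map (fun p => X * derivative p) - A * w = w * Bm := by
      ext1 i j
      have h1 := congrFun (hB j) i
      rw [Finset.sum_apply] at h1
      rw [Matrix.sub_apply, Matrix.map_apply, Matrix.mul_apply, Matrix.mul_apply]
      rw [Matrix.mulVec, dotProduct] at h1
      simp only [hw, hBm, Matrix.of_apply]
      rw [h1]
      refine Finset.sum_congr rfl fun k _ => ?_
      rw [Pi.smul_apply, smul_eq_mul, mul_comm]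
    set ev : ℂ[X] →+* ℂ := Polynomial.evalRingHom 0 with hev
    have hrel0 : -(A.map ev) * w.map ev = w.map ev * Bm.map ev := by
      have h1 := congrArg (fun M : Matrix (Fin n) (Fin s) ℂ[X] => M.map ev) hrel
      rw [Matrix.map_mul, Matrix.map_sub _ (fun a b => map_sub ev a b), Matrix.map_mul] at h1
      rw [← h1]
      have h2 : (w.map fun p => X * derivative p).map ev = 0 := by
        ext1 i j
        simp [hev]
      rw [h2, zero_sub, Matrix.neg_mul]
    have hpow : ∀ N : ℕ, (-(A.map ev)) ^ N * w.map ev = w.map ev * Bm.map ev ^ N := by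
      intro N
      induction N with
      | zero => simp
      | succ N ih =>
        rw [pow_succ, Matrix.mul_assoc, hrel0, ← Matrix.mul_assoc, ih, Matrix.mul_assoc, ← pow_succ]
    have hindep0 : ∀ c : Fin s → ℂ, (w.map ev).mulVec c = 0 → c = 0 := by
      intro c hc
      set v : Fin n → ℂ[X] := ∑ j, C (c j) • (b j : Fin n → ℂ[X]) with hv
      have hvL : v ∈ Lat W := Submodule.sum_mem _ fun j _ => Submodule.smul_mem _ _ (b j).2
      have hv0 : ∀ i, X ∣ v i := by
        intro i
        rw [Polynomial.X_dvd_iff, Polynomial.coeff_zero_eq_eval_zero]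
        have h1 := congrFun hc i
        rw [Matrix.mulVec, dotProduct, Pi.zero_apply] at h1
        rw [hv, Finset.sum_apply, Polynomial.eval_finsetSum]
        refine Eq.trans (Finset.sum_congr rfl fun j _ => ?_) h1
        rw [Pi.smul_apply, smul_eq_mul, Polynomial.eval_mul, Polynomial.eval_C, Matrix.map_apply, hw,
          Matrix.of_apply, hev, Polynomial.coe_evalRingHom, mul_comm]
      choose u hu using hv0
      have hvu : v = (X : ℂ[X]) • u := by
        funext i
        rw [Pi.smul_apply, smul_eq_mul, hu i]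
      have huL : u ∈ Lat W := by
        rw [mem_Lat]
        have h1 : io n v ∈ W := hvL
        rw [hvu, map_smul, ← algebraMap_smul FF (X : ℂ[X]) (io n u)] at h1
        have hX : (algebraMap ℂ[X] FF X) ≠ 0 := by
          intro h
          exact Polynomial.X_ne_zero ((IsFractionRing.injective ℂ[X] FF) (by rw [h, map_zero]))
        exact (Submodule.smul_mem_iff W hX).1 h1
      obtain ⟨d, hd⟩ := hrepr u huL
      have h2 : ∑ j, (C (c j) - X * d j) • (b j : Fin n → ℂ[X]) = 0 := by
        have h3 : v = ∑ j, (X * d j) • (b j : Fin n → ℂ[X]) := by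
          rw [hvu, hd, Finset.smul_sum]
          refine Finset.sum_congr rfl fun j _ => ?_
          rw [smul_smul]
        simp only [sub_smul]
        rw [Finset.sum_sub_distrib, ← h3, ← hv, sub_self]
      have h4 := hindp _ h2
      funext j
      have h5 := congrArg (Polynomial.eval 0) (congrFun h4 j)
      simpa using h5
    obtain ⟨N, hN⟩ := hA
    have hA' : A.map ev ^ N = 0 := hN
    have hBN : Bm.map ev ^ N = 0 := by
      have h1 := hpow N
      rw [neg_pow, hA', mul_zero, Matrix.zero_mul] at h1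
      ext1 i j
      have h2 : (w.map ev).mulVec (fun k => (Bm.map ev ^ N) k j) = 0 := by
        funext i'
        have := congrFun (congrFun h1.symm i') j
        simpa [Matrix.mul_apply, Matrix.mulVec, dotProduct] using this
      exact congrFun (hindep0 _ h2) i
    have hnil : IsNilpotent (Bm.map ev) := ⟨N, hBN⟩
    have htr := Matrix.isNilpotent_trace_of_isNilpotent hnil
    have h3 : (Bm.map ev).trace = 0 := htr.eq_zero
    refine Eq.trans ?_ h3
    rw [Matrix.trace, Matrix.trace, Polynomial.eval_finsetSum]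
    rfl

end Pool.Agent.E8helper36.AZ
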